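import Mathlib
import Pool.Agent.W996.MW.Basic

/-! Symmetric verifiers: the structure of an optimal witness. -/

set_option autoImplicit false

open scoped ComplexOrder Matrix
open Pool.Agent.W996.MW

namespace Pool.Agent.TH269.SV

variable {D n c : ℕ}

/-- Basis states: a value of an extra register of dimension `D`, and `n` qubits. -/
abbrev St (D n : ℕ) : Type := Fin D × (Fin n → Bool)

/-- The operator `E` does not change if two qubits of the same type are exchanged. -/
def Symm (τ : Fin n → Fin c) (E : Matrix (St D n) (St D n) ℂ) : Prop :=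
  ∀ i j, τ i = τ j → ∀ a x b y,
    E (a, x ∘ Equiv.swap i j) (b, y ∘ Equiv.swap i j) = E (a, x) (b, y)

/-- `μ` is a matching of qubits of the same type (the fixed points are unmatched). -/
def Matching (τ : Fin n → Fin c) (μ : Fin n → Fin n) : Prop :=
  ∀ i, μ (μ i) = i ∧ τ (μ i) = τ i

/-- Antisymmetric in the matched pairs. -/
def Anti (μ : Fin n → Fin n) (ψ : St D n → ℂ) : Prop :=
  ∀ i, μ i ≠ i → ∀ a x, ψ (a, x ∘ Equiv.swap i (μ i)) = - ψ (a, x)

/-- Symmetric in the unmatched qubits of the same type. -/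
def SymU (τ : Fin n → Fin c) (μ : Fin n → Fin n) (ψ : St D n → ℂ) : Prop :=
  ∀ i j, μ i = i → μ j = j → τ i = τ j → ∀ a x, ψ (a, x ∘ Equiv.swap i j) = ψ (a, x)

/-- exchange of two qubits -/
def R (i j : Fin n) (ψ : St D n → ℂ) : St D n → ℂ := fun p => ψ (p.1, p.2 ∘ Equiv.swap i j)

theorem comp_swap_swap (i j : Fin n) (x : Fin n → Bool) :
    (x ∘ Equiv.swap i j) ∘ Equiv.swap i j = x := by
  funext k
  simp

theorem mulVec_R {τ : Fin n → Fin c} {B : Matrix (St D n) (St D n) ℂ} (hB : Symm τ B)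
    {i j : Fin n} (hij : τ i = τ j) (ψ : St D n → ℂ) : B *ᵥ (R i j ψ) = R i j (B *ᵥ ψ) := by
  funext p
  obtain ⟨a, x⟩ := p
  simp only [Matrix.mulVec, dotProduct, R]
  refine Fintype.sum_equiv (Equiv.prodCongr (Equiv.refl _)
    (Equiv.arrowCongr (Equiv.swap i j) (Equiv.refl _))) _ _ fun q => ?_
  obtain ⟨b, y⟩ := q
  have h1 : (Equiv.prodCongr (Equiv.refl (Fin D))
      (Equiv.arrowCongr (Equiv.swap i j) (Equiv.refl Bool))) (b, y) =
      (b, y ∘ Equiv.swap i j) := by
    simp only [Equiv.prodCongr_apply, Prod.map_apply, Equiv.refl_apply, Equiv.arrowCongr_apply,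
      Equiv.symm_swap]
    rfl
  rw [h1]
  have h2 := hB i j hij a x b y
  simp only
  rw [← h2]

theorem symm_sub_one {τ : Fin n → Fin c} {E : Matrix (St D n) (St D n) ℂ} (hE : Symm τ E)
    (s : ℂ) : Symm τ (s • (1 : Matrix (St D n) (St D n) ℂ) - E) := by
  intro i j hij a x b y
  have h1 : ((a, x ∘ Equiv.swap i j) = (b, y ∘ Equiv.swap i j)) ↔ (a, x) = (b, y) := by
    rw [Prod.mk.injEq, Prod.mk.injEq]
    refine and_congr_right fun _ => ⟨fun h => ?_, fun h => by rw [h]⟩
    have := congrArg (fun z => z ∘ Equiv.swap i j) h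
    simpa only [comp_swap_swap] using this
  simp only [Matrix.sub_apply, Matrix.smul_apply, Matrix.one_apply, h1, hE i j hij a x b y]

/-- a maximal point of the acceptance probability -/
theorem exists_max {ι : Type*} [Fintype ι] [DecidableEq ι] [Nonempty ι] (E : Matrix ι ι ℂ) :
    ∃ ψ : ι → ℂ, normSq ψ = 1 ∧ ∀ φ : ι → ℂ, normSq φ = 1 → accept E φ ≤ accept E ψ := by
  have hc : IsCompact (Metric.sphere (0 : EuclideanSpace ℂ ι) 1) := isCompact_sphere _ _
  have hne : (Metric.sphere (0 : EuclideanSpace ℂ ι) 1).Nonempty :=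
    ⟨EuclideanSpace.single (Classical.arbitrary ι) (1 : ℂ), by simp⟩
  have hn : ∀ v : EuclideanSpace ℂ ι, normSq (fun i => v i) = ‖v‖ ^ 2 := fun v => by
    rw [EuclideanSpace.norm_sq_eq]
    rfl
  have hf : Continuous fun v : EuclideanSpace ℂ ι => accept E (fun i => v i) := by
    unfold accept
    simp only [dotProduct, Matrix.mulVec, Pi.star_apply]
    fun_prop
  obtain ⟨v, hv, hmax⟩ := hc.exists_isMaxOn hne hf.continuousOn
  refine ⟨fun i => v i, ?_, fun φ hφ => ?_⟩
  · rw [hn, mem_sphere_zero_iff_norm.1 hv, one_pow]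
  · have h1 : (WithLp.toLp 2 φ : EuclideanSpace ℂ ι) ∈ Metric.sphere (0 : EuclideanSpace ℂ ι) 1 := by
      rw [mem_sphere_zero_iff_norm]
      have h2 := hn (WithLp.toLp 2 φ)
      have h3 : normSq (fun i => (WithLp.toLp 2 φ : EuclideanSpace ℂ ι) i) = 1 := hφ
      rw [h3] at h2
      have h4 : 0 ≤ ‖(WithLp.toLp 2 φ : EuclideanSpace ℂ ι)‖ := norm_nonneg _
      nlinarith [h2]
    exact hmax h1

end Pool.Agent.TH269.SV
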