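import Mathlib
import Pool.Agent.TH269.SV.Str

/-! Symmetric verifiers: the dimension of the space of states of the special form. -/

set_option autoImplicit false

open Finset

namespace Pool.Agent.TH269.SV

variable {D n c : ℕ}

/-- the number of qubits of type `t` -/
def cnt (τ : Fin n → Fin c) (t : Fin c) : ℕ := (univ.filter fun i => τ i = t).card

/-- `D ∏ (n_t + 1)` -/
def dimT (D : ℕ) (τ : Fin n → Fin c) : ℕ := D * ∏ t, (cnt τ t + 1)

/-- number of ones at the unmatched positions of type `t` -/
def wt (τ : Fin n → Fin c) (μ : Fin n → Fin n) (x : Fin n → Bool) (t : Fin c) : ℕ :=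
  (univ.filter fun i => μ i = i ∧ τ i = t ∧ x i = true).card

/-- the matched pairs have the values `1, 0` -/
def Can (μ : Fin n → Fin n) (y : Fin n → Bool) : Prop := ∀ i, μ i ≠ i → (y i = true ↔ i < μ i)

theorem wt_le (τ : Fin n → Fin c) (μ : Fin n → Fin n) (x : Fin n → Bool) (t : Fin c) :
    wt τ μ x t ≤ cnt τ t :=
  card_le_card fun i hi => by
    rw [mem_filter] at hi ⊢
    exact ⟨hi.1, hi.2.2.1⟩

/-- distance -/
def hd (x y : Fin n → Bool) : ℕ := (univ.filter fun i => x i ≠ y i).card

theorem hd_swap {x y : Fin n → Bool} {i j : Fin n} (hij : i ≠ j) (h1 : x i ≠ y i)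
    (h2 : x j = y i) (h3 : x i = y j) : hd (x ∘ Equiv.swap i j) y < hd x y := by
  refine card_lt_card ?_
  rw [ssubset_iff_of_subset]
  · refine ⟨i, mem_filter.2 ⟨mem_univ _, h1⟩, ?_⟩
    rw [mem_filter]
    rintro ⟨-, h4⟩
    apply h4
    simp [h2]
  · intro k hk
    have hk' := (mem_filter.1 hk).2
    refine mem_filter.2 ⟨mem_univ _, ?_⟩
    by_cases e1 : k = i
    · subst e1
      exact h1
    · by_cases e2 : k = j
      · subst e2
        exfalso
        apply hk'
        simp [h3]
      · simpa [Equiv.swap_apply_of_ne_of_ne e1 e2] using hk'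

theorem vanish {τ : Fin n → Fin c} {μ : Fin n → Fin n} (hM : Matching τ μ) {ψ : St D n → ℂ}
    (hA : Anti μ ψ) (hS : SymU τ μ ψ) (a : Fin D) {y : Fin n → Bool} (hy : Can μ y)
    (h0 : ψ (a, y) = 0) : ∀ (k : ℕ) (x : Fin n → Bool), hd x y = k →
      (∀ t, wt τ μ x t = wt τ μ y t) → ψ (a, x) = 0 := by
  intro k
  induction k using Nat.strong_induction_on with
  | _ k ih =>
    intro x hk hw
    by_cases hxy : x = y
    · rw [hxy, h0]
    obtain ⟨i, hi⟩ : ∃ i, x i ≠ y i := by
      by_contra hcon
      push Not at hcon
      exact hxy (funext hcon)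
    by_cases hμ : μ i = i
    · -- an unmatched position
      obtain ⟨j, hj1, hj2, hj3, hj4⟩ : ∃ j, μ j = j ∧ τ j = τ i ∧ x j ≠ y j ∧ x j = y i := by
        by_contra hcon
        push Not at hcon
        have hc := hw (τ i)
        unfold wt at hc
        rcases hxi : x i with _ | _
        · have hyi : y i = true := by
            rcases h : y i with _ | _
            · rw [hxi, h] at hi
              exact absurd rfl hi
            · rfl
          have hlt : (univ.filter fun j => μ j = j ∧ τ j = τ i ∧ x j = true) ⊂
              (univ.filter fun j => μ j = j ∧ τ j = τ i ∧ y j = true) := by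
            rw [ssubset_iff_of_subset]
            · refine ⟨i, mem_filter.2 ⟨mem_univ _, hμ, rfl, hyi⟩, ?_⟩
              rw [mem_filter]
              rintro ⟨-, -, -, h4⟩
              rw [hxi] at h4
              exact absurd h4 (by decide)
            · intro j hj
              obtain ⟨-, h1, h2, h3⟩ := mem_filter.1 hj
              refine mem_filter.2 ⟨mem_univ _, h1, h2, ?_⟩
              by_contra h4
              have h5 : y j = false := by simpa using h4
              exact hcon j h1 h2 (by rw [h3, h5]; decide) (by rw [h3, hyi])
          exact absurd hc (card_lt_card hlt).ne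
        · have hyi : y i = false := by
            rcases h : y i with _ | _
            · rfl
            · rw [hxi, h] at hi
              exact absurd rfl hi
          have hlt : (univ.filter fun j => μ j = j ∧ τ j = τ i ∧ y j = true) ⊂
              (univ.filter fun j => μ j = j ∧ τ j = τ i ∧ x j = true) := by
            rw [ssubset_iff_of_subset]
            · refine ⟨i, mem_filter.2 ⟨mem_univ _, hμ, rfl, hxi⟩, ?_⟩
              rw [mem_filter]
              rintro ⟨-, -, -, h4⟩
              rw [hyi] at h4
              exact absurd h4 (by decide)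
            · intro j hj
              obtain ⟨-, h1, h2, h3⟩ := mem_filter.1 hj
              refine mem_filter.2 ⟨mem_univ _, h1, h2, ?_⟩
              by_contra h4
              have h5 : x j = false := by simpa using h4
              exact hcon j h1 h2 (by rw [h3, h5]; decide) (by rw [h5, hyi])
          exact absurd hc (card_lt_card hlt).ne'
      have hij : i ≠ j := by
        rintro rfl
        exact hi hj4
      have h3 : x i = y j := by
        rcases h1 : x i with _ | _ <;> rcases h2 : y i with _ | _ <;> rcases h4 : x j with _ | _ <;>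
          rcases h5 : y j with _ | _ <;> simp_all
      have h6 := ih _ (hk ▸ hd_swap hij hi hj4 h3) (x ∘ Equiv.swap i j) rfl ?_
      · rw [← hS i j hμ hj1 hj2.symm a x, h6]
      · intro t
        rw [← hw t]
        unfold wt
        refine card_bij' (fun k _ => Equiv.swap i j k) (fun k _ => Equiv.swap i j k) ?_ ?_ ?_ ?_
        · intro k hk'
          obtain ⟨-, h1, h2, h4⟩ := mem_filter.1 hk'
          refine mem_filter.2 ⟨mem_univ _, ?_, ?_, h4⟩
          · by_cases e1 : k = i
            · subst e1; simpa using hj1
            · by_cases e2 : k = j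
              · subst e2; simpa using hμ
              · rwa [Equiv.swap_apply_of_ne_of_ne e1 e2]
          · by_cases e1 : k = i
            · subst e1; rw [Equiv.swap_apply_left, hj2, h2]
            · by_cases e2 : k = j
              · subst e2; rw [Equiv.swap_apply_right, ← hj2, h2]
              · rwa [Equiv.swap_apply_of_ne_of_ne e1 e2]
        · intro k hk'
          obtain ⟨-, h1, h2, h4⟩ := mem_filter.1 hk'
          refine mem_filter.2 ⟨mem_univ _, ?_, ?_, by simpa using h4⟩
          · by_cases e1 : k = i
            · subst e1; simpa using hj1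
            · by_cases e2 : k = j
              · subst e2; simpa using hμ
              · rwa [Equiv.swap_apply_of_ne_of_ne e1 e2]
          · by_cases e1 : k = i
            · subst e1; rw [Equiv.swap_apply_left, hj2, h2]
            · by_cases e2 : k = j
              · subst e2; rw [Equiv.swap_apply_right, ← hj2, h2]
              · rwa [Equiv.swap_apply_of_ne_of_ne e1 e2]
        · intro k _
          simp
        · intro k _
          simp
    · -- a matched position
      have hμμ : μ (μ i) = i := (hM i).1
      have hμ' : μ (μ i) ≠ μ i := by rw [hμμ]; exact fun h => hμ h.symm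
      by_cases hx : x i = x (μ i)
      · have h1 : x ∘ Equiv.swap i (μ i) = x := by
          funext k
          by_cases e1 : k = i
          · subst e1; simp [hx]
          · by_cases e2 : k = μ i
            · subst e2; simp [hx]
            · simp [Equiv.swap_apply_of_ne_of_ne e1 e2]
        have h2 := hA i hμ a x
        rw [h1] at h2
        have h3 : (2 : ℂ) * ψ (a, x) = 0 := by linear_combination h2
        simpa using h3
      · have hy1 := hy i hμ
        have hy2 := hy (μ i) hμ'
        rw [hμμ] at hy2
        have hyy : y (μ i) = !y i := by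
          rcases lt_or_gt_of_ne hμ with h | h
          · have h1 : y (μ i) = true := hy2.2 h
            have h2 : ¬ (y i = true) := fun h3 => absurd (hy1.1 h3) (not_lt.2 h.le)
            rw [h1]
            simp at h2
            simp [h2]
          · have h1 : y i = true := hy1.2 h
            have h2 : ¬ (y (μ i) = true) := fun h3 => absurd (hy2.1 h3) (not_lt.2 h.le)
            simp at h2
            simp [h1, h2]
        have h2 : x (μ i) = y i := by
          rcases h1 : x i with _ | _ <;> rcases h2 : y i with _ | _ <;>
            rcases h4 : x (μ i) with _ | _ <;> simp_all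
        have h3 : x i = y (μ i) := by
          rcases h1 : x i with _ | _ <;> rcases h2 : y i with _ | _ <;> simp_all
        have h6 := ih _ (hk ▸ hd_swap (Ne.symm hμ) hi h2 h3) (x ∘ Equiv.swap i (μ i)) rfl ?_
        · rw [hA i hμ a x] at h6
          simpa using h6
        · intro t
          rw [← hw t]
          unfold wt
          congr 1
          refine filter_congr fun k _ => ?_
          refine and_congr_right fun e => ?_
          have e1 : k ≠ i := by
            rintro rfl
            exact hμ e
          have e2 : k ≠ μ i := by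
            rintro rfl
            exact hμ' e
          simp [Equiv.swap_apply_of_ne_of_ne e1 e2]

/-- the space of the states of the special form -/
def U (D : ℕ) (τ : Fin n → Fin c) (μ : Fin n → Fin n) :
    Submodule ℂ (EuclideanSpace ℂ (St D n)) where
  carrier := {v | Anti μ (fun p => v p) ∧ SymU τ μ (fun p => v p)}
  zero_mem' := by
    refine ⟨fun i _ a x => ?_, fun i j _ _ _ a x => ?_⟩
    · simp
    · simp
  add_mem' := by
    rintro u v ⟨h1, h2⟩ ⟨h3, h4⟩
    refine ⟨fun i hi a x => ?_, fun i j hi hj hij a x => ?_⟩
    · have e1 := h1 i hi a x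
      have e2 := h3 i hi a x
      simp only [PiLp.add_apply] at *
      rw [e1, e2]
      ring
    · have e1 := h2 i j hi hj hij a x
      have e2 := h4 i j hi hj hij a x
      simp only [PiLp.add_apply] at *
      rw [e1, e2]
  smul_mem' := by
    rintro r v ⟨h1, h2⟩
    refine ⟨fun i hi a x => ?_, fun i j hi hj hij a x => ?_⟩
    · have e1 := h1 i hi a x
      simp only [PiLp.smul_apply, smul_eq_mul] at *
      rw [e1]
      ring
    · have e1 := h2 i j hi hj hij a x
      simp only [PiLp.smul_apply, smul_eq_mul] at *
      rw [e1]

open Classical in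
/-- representatives -/
noncomputable def rep (τ : Fin n → Fin c) (μ : Fin n → Fin n) (w : (t : Fin c) → Fin (cnt τ t + 1)) :
    Fin n → Bool :=
  if h : ∃ y, Can μ y ∧ ∀ t, wt τ μ y t = w t then h.choose else fun _ => false

theorem rep_spec {τ : Fin n → Fin c} (μ : Fin n → Fin n) (x : Fin n → Bool) :
    Can μ (rep τ μ fun t => ⟨wt τ μ x t, Nat.lt_succ_of_le (wt_le τ μ x t)⟩) ∧
    ∀ t, wt τ μ (rep τ μ fun t => ⟨wt τ μ x t, Nat.lt_succ_of_le (wt_le τ μ x t)⟩) t =
      wt τ μ x t := by
  have h : ∃ y, Can μ y ∧ ∀ t, wt τ μ y t =
      ((fun t => ⟨wt τ μ x t, Nat.lt_succ_of_le (wt_le τ μ x t)⟩ :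
        (t : Fin c) → Fin (cnt τ t + 1)) t : ℕ) := by
    refine ⟨fun i => if μ i = i then x i else decide (i < μ i), fun i hi => ?_, fun t => ?_⟩
    · simp [hi]
    · change wt τ μ (fun i => if μ i = i then x i else decide (i < μ i)) t = wt τ μ x t
      unfold wt
      refine congrArg card (filter_congr fun k _ => ?_)
      refine and_congr_right fun e => ?_
      simp [e]
  unfold rep
  rw [dif_pos h]
  exact h.choose_spec

theorem finrank_U {τ : Fin n → Fin c} {μ : Fin n → Fin n} (hM : Matching τ μ) :
    Module.finrank ℂ (U D τ μ) ≤ dimT D τ := by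
  let ev : U D τ μ →ₗ[ℂ] (Fin D × ((t : Fin c) → Fin (cnt τ t + 1)) → ℂ) :=
    { toFun := fun v q => (v : EuclideanSpace ℂ (St D n)) (q.1, rep τ μ q.2)
      map_add' := fun u v => by
        funext q
        simp
      map_smul' := fun r v => by
        funext q
        simp }
  have hinj : Function.Injective ev := by
    rw [injective_iff_map_eq_zero]
    intro v hv
    obtain ⟨v, hA, hS⟩ := v
    have h1 : v = 0 := by
      ext p
      obtain ⟨a, x⟩ := p
      obtain ⟨h2, h3⟩ := rep_spec (τ := τ) μ x
      have h4 : v (a, rep τ μ fun t => ⟨wt τ μ x t, Nat.lt_succ_of_le (wt_le τ μ x t)⟩) = 0 :=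
        congrFun hv (a, _)
      exact vanish hM hA hS a h2 h4 _ x rfl fun t => (h3 t).symm
    exact Subtype.ext h1
  have h1 := LinearMap.finrank_le_finrank_of_injective hinj
  rw [Module.finrank_fintype_fun_eq_card, Fintype.card_prod, Fintype.card_fin,
    Fintype.card_pi] at h1
  simpa [dimT] using h1

end Pool.Agent.TH269.SV
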