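import Mathlib
import Pool.Agent.TH269.SV.Dim

/-! Symmetric verifiers: the explicit form of the witnesses. -/

set_option autoImplicit false

open Finset

namespace Pool.Agent.TH269.SV

variable {D n c : ℕ}

/-- The amplitudes of the singlet: `10 ↦ 1`, `01 ↦ -1`, `00, 11 ↦ 0`. -/
def sgl (a b : Bool) : ℂ := if a = b then 0 else if a = true then 1 else -1

/-- The state with singlets at the matched pairs of `μ`, whose remaining amplitude depends only on
the extra register and on the numbers of ones at the unmatched positions of the types. -/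
def form (τ : Fin n → Fin c) (μ : Fin n → Fin n) (g : Fin D → (Fin c → ℕ) → ℂ) : St D n → ℂ :=
  fun p => (∏ i ∈ univ.filter (fun i => i < μ i), sgl (p.2 i) (p.2 (μ i))) * g p.1 (wt τ μ p.2)

theorem sgl_swap (a b : Bool) : sgl b a = - sgl a b := by
  cases a <;> cases b <;> simp [sgl]

theorem wt_swap_unmatched {τ : Fin n → Fin c} {μ : Fin n → Fin n} {i j : Fin n} (hi : μ i = i)
    (hj : μ j = j) (hij : τ i = τ j) (x : Fin n → Bool) :
    wt τ μ (x ∘ Equiv.swap i j) = wt τ μ x := by
  funext t
  unfold wt
  refine card_bij' (fun k _ => Equiv.swap i j k) (fun k _ => Equiv.swap i j k) ?_ ?_ ?_ ?_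
  · intro k hk'
    obtain ⟨-, h1, h2, h4⟩ := mem_filter.1 hk'
    refine mem_filter.2 ⟨mem_univ _, ?_, ?_, h4⟩
    · by_cases e1 : k = i
      · subst e1; simpa using hj
      · by_cases e2 : k = j
        · subst e2; simpa using hi
        · rwa [Equiv.swap_apply_of_ne_of_ne e1 e2]
    · by_cases e1 : k = i
      · subst e1; rw [Equiv.swap_apply_left, ← hij, h2]
      · by_cases e2 : k = j
        · subst e2; rw [Equiv.swap_apply_right, hij, h2]
        · rwa [Equiv.swap_apply_of_ne_of_ne e1 e2]
  · intro k hk'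
    obtain ⟨-, h1, h2, h4⟩ := mem_filter.1 hk'
    refine mem_filter.2 ⟨mem_univ _, ?_, ?_, by simpa using h4⟩
    · by_cases e1 : k = i
      · subst e1; simpa using hj
      · by_cases e2 : k = j
        · subst e2; simpa using hi
        · rwa [Equiv.swap_apply_of_ne_of_ne e1 e2]
    · by_cases e1 : k = i
      · subst e1; rw [Equiv.swap_apply_left, ← hij, h2]
      · by_cases e2 : k = j
        · subst e2; rw [Equiv.swap_apply_right, hij, h2]
        · rwa [Equiv.swap_apply_of_ne_of_ne e1 e2]
  · intro k _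
    simp
  · intro k _
    simp

theorem wt_swap_matched {τ : Fin n → Fin c} {μ : Fin n → Fin n} {i : Fin n} (hi : μ i ≠ i)
    (hM : μ (μ i) = i) (x : Fin n → Bool) : wt τ μ (x ∘ Equiv.swap i (μ i)) = wt τ μ x := by
  funext t
  unfold wt
  refine congrArg card (filter_congr fun k _ => ?_)
  refine and_congr_right fun e => ?_
  have e1 : k ≠ i := by
    rintro rfl
    exact hi e
  have e2 : k ≠ μ i := by
    rintro rfl
    rw [hM] at e
    exact hi e.symm
  simp [Equiv.swap_apply_of_ne_of_ne e1 e2]

theorem symU_form {τ : Fin n → Fin c} {μ : Fin n → Fin n} (hM : Matching τ μ)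
    (g : Fin D → (Fin c → ℕ) → ℂ) : SymU τ μ (form τ μ g) := by
  intro i j hi hj hij a x
  unfold form
  simp only
  rw [wt_swap_unmatched hi hj hij]
  congr 1
  refine prod_congr rfl fun k hk => ?_
  have hk' := (mem_filter.1 hk).2
  have e1 : k ≠ i := by
    rintro rfl
    rw [hi] at hk'
    exact lt_irrefl _ hk'
  have e2 : k ≠ j := by
    rintro rfl
    rw [hj] at hk'
    exact lt_irrefl _ hk'
  have e3 : μ k ≠ i := by
    intro h
    have := (hM k).1
    rw [h, hi] at this
    exact e1 this.symm
  have e4 : μ k ≠ j := by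
    intro h
    have := (hM k).1
    rw [h, hj] at this
    exact e2 this.symm
  simp [Equiv.swap_apply_of_ne_of_ne e1 e2, Equiv.swap_apply_of_ne_of_ne e3 e4]

theorem anti_form {τ : Fin n → Fin c} {μ : Fin n → Fin n} (hM : Matching τ μ)
    (g : Fin D → (Fin c → ℕ) → ℂ) : Anti μ (form τ μ g) := by
  intro i hi a x
  have hμμ := (hM i).1
  unfold form
  simp only
  rw [wt_swap_matched hi hμμ]
  -- the index of the pair
  obtain ⟨m, hm, hpair⟩ : ∃ m, m < μ m ∧ ((m = i ∧ μ m = μ i) ∨ (m = μ i ∧ μ m = i)) := by
    rcases lt_or_gt_of_ne hi with h | h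
    · exact ⟨μ i, by rw [hμμ]; exact h, Or.inr ⟨rfl, hμμ⟩⟩
    · exact ⟨i, h, Or.inl ⟨rfl, rfl⟩⟩
  have hmem : m ∈ univ.filter (fun i => i < μ i) := mem_filter.2 ⟨mem_univ _, hm⟩
  rw [← mul_prod_erase _ _ hmem, ← mul_prod_erase _ _ hmem]
  have h1 : sgl ((x ∘ Equiv.swap i (μ i)) m) ((x ∘ Equiv.swap i (μ i)) (μ m)) =
      - sgl (x m) (x (μ m)) := by
    rcases hpair with ⟨e1, e2⟩ | ⟨e1, e2⟩
    · subst e1
      simp only [Function.comp_apply, Equiv.swap_apply_left, Equiv.swap_apply_right]
      exact sgl_swap _ _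
    · rw [e2, e1]
      simp only [Function.comp_apply, Equiv.swap_apply_left, Equiv.swap_apply_right]
      exact sgl_swap _ _
  have h2 : ∏ k ∈ (univ.filter (fun i => i < μ i)).erase m,
      sgl ((x ∘ Equiv.swap i (μ i)) k) ((x ∘ Equiv.swap i (μ i)) (μ k)) =
      ∏ k ∈ (univ.filter (fun i => i < μ i)).erase m, sgl (x k) (x (μ k)) := by
    refine prod_congr rfl fun k hk => ?_
    obtain ⟨hkm, hk'⟩ := mem_erase.1 hk
    have hk'' := (mem_filter.1 hk').2
    have hall : k ≠ i ∧ k ≠ μ i ∧ μ k ≠ i ∧ μ k ≠ μ i := by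
      rcases hpair with ⟨e1, e2⟩ | ⟨e1, e2⟩
      · subst e1
        refine ⟨hkm, ?_, ?_, ?_⟩
        · rintro rfl
          rw [hμμ] at hk''
          exact lt_asymm hk'' hm
        · intro h
          have := (hM k).1
          rw [h] at this
          rw [← this, hμμ] at hk''
          exact lt_asymm hk'' hm
        · intro h
          have h3 := congrArg μ h
          rw [(hM k).1, hμμ] at h3
          exact hkm h3
      · refine ⟨?_, ?_, ?_, ?_⟩
        · rintro rfl
          rw [← e1, ] at hk''
          rw [e2] at hm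
          exact lt_asymm hk'' hm
        · rw [← e1]
          exact hkm
        · intro h
          have h3 := congrArg μ h
          rw [(hM k).1, ← e1] at h3
          exact hkm h3
        · intro h
          have h3 := congrArg μ h
          rw [(hM k).1, hμμ] at h3
          subst h3
          rw [← e1, ] at hk''
          rw [e2] at hm
          exact lt_asymm hk'' hm
    obtain ⟨f1, f2, f3, f4⟩ := hall
    simp [Equiv.swap_apply_of_ne_of_ne f1 f2, Equiv.swap_apply_of_ne_of_ne f3 f4]
  rw [h1, h2]
  ring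

/-- **Every antisymmetric-symmetric state has the explicit form.** -/
theorem form_of {τ : Fin n → Fin c} {μ : Fin n → Fin n} (hM : Matching τ μ) {ψ : St D n → ℂ}
    (hA : Anti μ ψ) (hS : SymU τ μ ψ) : ∃ g : Fin D → (Fin c → ℕ) → ℂ, ψ = form τ μ g := by
  classical
  let y : (Fin c → ℕ) → Fin n → Bool := fun w =>
    if h : ∃ x, Can μ x ∧ wt τ μ x = w then h.choose else fun _ => false
  refine ⟨fun a w => ψ (a, y w), ?_⟩
  set g : Fin D → (Fin c → ℕ) → ℂ := fun a w => ψ (a, y w) with hg
  have hA' : Anti μ (ψ - form τ μ g) := by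
    intro i hi a x
    simp only [Pi.sub_apply]
    rw [hA i hi a x, anti_form hM g i hi a x]
    ring
  have hS' : SymU τ μ (ψ - form τ μ g) := by
    intro i j hi hj hij a x
    simp only [Pi.sub_apply]
    rw [hS i j hi hj hij a x, symU_form hM g i j hi hj hij a x]
  have key : ∀ a x, (ψ - form τ μ g) (a, x) = 0 := by
    intro a x
    have hex : ∃ x', Can μ x' ∧ wt τ μ x' = wt τ μ x := by
      refine ⟨fun i => if μ i = i then x i else decide (i < μ i), fun i hi => ?_, ?_⟩
      · simp [hi]
      · funext t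
        unfold wt
        refine congrArg card (filter_congr fun k _ => ?_)
        refine and_congr_right fun e => ?_
        simp [e]
    have hy : y (wt τ μ x) = hex.choose := dif_pos hex
    obtain ⟨h1, h2⟩ := hex.choose_spec
    refine vanish hM hA' hS' a h1 ?_ _ x rfl fun t => (congrFun h2 t).symm
    rw [Pi.sub_apply]
    unfold form
    simp only
    have h3 : ∏ i ∈ univ.filter (fun i => i < μ i),
        sgl (hex.choose i) (hex.choose (μ i)) = 1 := by
      refine prod_eq_one fun i hi => ?_
      have hlt := (mem_filter.1 hi).2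
      have h4 : hex.choose i = true := (h1 i hlt.ne').2 hlt
      have h5 : hex.choose (μ i) = false := by
        have h6 := h1 (μ i) (by rw [(hM i).1]; exact hlt.ne)
        rw [(hM i).1] at h6
        by_contra hcon
        have h7 : hex.choose (μ i) = true := by simpa using hcon
        exact lt_asymm hlt (h6.1 h7)
      rw [h4, h5]
      simp [sgl]
    rw [h3, one_mul, h2, hg]
    simp only
    rw [hy, sub_self]
  funext p
  have := key p.1 p.2
  rw [Pi.sub_apply] at this
  exact sub_eq_zero.1 this

end Pool.Agent.TH269.SV
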