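import Mathlib
import Pool.Agent.TH269.SV.Str

/-! Symmetric verifiers: there is an optimal witness which is antisymmetric in matched pairs and
symmetric in the unmatched qubits. -/

set_option autoImplicit false

open scoped ComplexOrder Matrix
open Pool.Agent.W996.MW

namespace Pool.Agent.TH269.SV

variable {D n c : ℕ}

theorem ext_of_R {i j : Fin n} {ψ : St D n → ℂ} :
    (∀ a x, ψ (a, x ∘ Equiv.swap i j) = - ψ (a, x)) ↔ R i j ψ = - ψ := by
  constructor
  · intro h
    funext p
    exact h p.1 p.2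
  · intro h a x
    exact congrFun h (a, x)

theorem R_comm {i j k l : Fin n} (h1 : i ≠ k) (h2 : i ≠ l) (h3 : j ≠ k) (h4 : j ≠ l)
    (ψ : St D n → ℂ) : R i j (R k l ψ) = R k l (R i j ψ) := by
  funext p
  have h5 : Equiv.swap i j * Equiv.swap k l = Equiv.swap k l * Equiv.swap i j := by
    refine (Equiv.Perm.Disjoint.commute ?_)
    intro z
    by_cases hz : z = i ∨ z = j
    · right
      rcases hz with rfl | rfl
      · exact Equiv.swap_apply_of_ne_of_ne h1 h2
      · exact Equiv.swap_apply_of_ne_of_ne h3 h4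
    · left
      rw [not_or] at hz
      exact Equiv.swap_apply_of_ne_of_ne hz.1 hz.2
  have h6 : (p.2 ∘ Equiv.swap i j) ∘ Equiv.swap k l = (p.2 ∘ Equiv.swap k l) ∘ Equiv.swap i j := by
    have := congrArg (fun (e : Equiv.Perm (Fin n)) => p.2 ∘ e) h5
    simpa [Equiv.Perm.coe_mul, Function.comp_assoc] using this
  simp only [R]
  rw [h6]

theorem R_sub (i j : Fin n) (u v : St D n → ℂ) : R i j (u - v) = R i j u - R i j v := rfl

theorem R_R (i j : Fin n) (v : St D n → ℂ) : R i j (R i j v) = v := by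
  funext p
  simp only [R, comp_swap_swap]

/-- the kernel of a symmetric matrix contains vectors of the special form -/
theorem exists_form {τ : Fin n → Fin c} {B : Matrix (St D n) (St D n) ℂ} (hB : Symm τ B)
    {v₀ : St D n → ℂ} (hv₀ : v₀ ≠ 0) (hBv : B *ᵥ v₀ = 0) :
    ∃ μ, Matching τ μ ∧ ∃ v : St D n → ℂ, v ≠ 0 ∧ B *ᵥ v = 0 ∧ Anti μ v ∧ SymU τ μ v := by
  classical
  let good : (Fin n → Fin n) → Prop := fun μ => Matching τ μ ∧
    ∃ v : St D n → ℂ, v ≠ 0 ∧ B *ᵥ v = 0 ∧ Anti μ v
  have hne : (Finset.univ.filter good).Nonempty := by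
    refine ⟨id, Finset.mem_filter.2 ⟨Finset.mem_univ _, fun i => ⟨rfl, rfl⟩, v₀, hv₀, hBv, ?_⟩⟩
    intro i hi
    exact absurd rfl hi
  obtain ⟨μ, hμ, hmax⟩ := Finset.exists_max_image (Finset.univ.filter good)
    (fun μ => (Finset.univ.filter fun i => μ i ≠ i).card) hne
  obtain ⟨-, hM, v, hv, hBv, hA⟩ := Finset.mem_filter.1 hμ
  refine ⟨μ, hM, v, hv, hBv, hA, ?_⟩
  intro i j hi hj hij
  by_contra hcon
  have hij' : i ≠ j := by
    rintro rfl
    apply hcon
    intro a x
    simp
  set u : St D n → ℂ := v - R i j v with hu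
  have hu0 : u ≠ 0 := by
    intro h0
    apply hcon
    intro a x
    have h1 := congrFun h0 (a, x)
    simp only [hu, Pi.sub_apply, Pi.zero_apply] at h1
    exact (sub_eq_zero.1 h1).symm
  have hBu : B *ᵥ u = 0 := by
    rw [hu, Matrix.mulVec_sub, mulVec_R hB hij, hBv]
    funext p
    simp [R]
  let μ' : Fin n → Fin n := fun k => if k = i then j else if k = j then i else μ k
  have e1 : μ' i = j := by simp [μ']
  have e2 : μ' j = i := by simp [μ', hij'.symm]
  have e3 : ∀ k, k ≠ i → k ≠ j → μ' k = μ k := fun k h1 h2 => by simp [μ', h1, h2]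
  have e4 : ∀ k, k ≠ i → k ≠ j → μ k ≠ i ∧ μ k ≠ j := by
    intro k h1 h2
    constructor
    · intro h3
      have := (hM k).1
      rw [h3, hi] at this
      exact h1 this.symm
    · intro h3
      have := (hM k).1
      rw [h3, hj] at this
      exact h2 this.symm
  have hM' : Matching τ μ' := by
    intro k
    by_cases h1 : k = i
    · subst h1
      rw [e1, e2]
      exact ⟨rfl, hij.symm⟩
    · by_cases h2 : k = j
      · subst h2
        rw [e2, e1]
        exact ⟨rfl, hij⟩
      · obtain ⟨h3, h4⟩ := e4 k h1 h2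
        rw [e3 k h1 h2, e3 _ h3 h4]
        exact hM k
  have hA' : Anti μ' u := by
    intro k hk
    rw [ext_of_R]
    by_cases h1 : k = i
    · subst h1
      rw [e1, hu, R_sub, R_R]
      abel
    · by_cases h2 : k = j
      · subst h2
        have h5 : R k i v = R i k v := by
          funext p
          simp only [R]
          rw [Equiv.swap_comm]
        have h6 : R k i (R i k v) = v := by
          have : R k i (R i k v) = R i k (R i k v) := by
            funext p
            simp only [R]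
            rw [Equiv.swap_comm k i]
          rw [this, R_R]
        rw [e2, hu, R_sub, h6, h5]
        abel
      · obtain ⟨h3, h4⟩ := e4 k h1 h2
        rw [e3 k h1 h2] at hk ⊢
        have h5 : R k (μ k) v = -v := ext_of_R.1 (hA k hk)
        rw [hu, R_sub, R_comm h1 h2 h3 h4, h5]
        funext p
        simp only [R, Pi.sub_apply, Pi.neg_apply]
        ring
  have h7 := hmax μ' (Finset.mem_filter.2 ⟨Finset.mem_univ _, hM', u, hu0, hBu, hA'⟩)
  have h8 : (Finset.univ.filter fun k => μ k ≠ k) ⊂ (Finset.univ.filter fun k => μ' k ≠ k) := by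
    rw [Finset.ssubset_iff_of_subset]
    · refine ⟨i, Finset.mem_filter.2 ⟨Finset.mem_univ _, ?_⟩, ?_⟩
      · rw [e1]
        exact hij'.symm
      · rw [Finset.mem_filter]
        exact fun h => h.2 hi
    · intro k hk
      have hk' := (Finset.mem_filter.1 hk).2
      refine Finset.mem_filter.2 ⟨Finset.mem_univ _, ?_⟩
      have h1 : k ≠ i := by
        rintro rfl
        exact hk' hi
      have h2 : k ≠ j := by
        rintro rfl
        exact hk' hj
      rw [e3 k h1 h2]
      exact hk'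
  exact absurd h7 (not_le.2 (Finset.card_lt_card h8))

/-- **Structure of an optimal witness.** -/
theorem exists_opt {τ : Fin n → Fin c} {E : Matrix (St D n) (St D n) ℂ} (hE : E.PosSemidef)
    (hS : Symm τ E) (hD : 1 ≤ D) :
    ∃ μ, Matching τ μ ∧ ∃ ψ : St D n → ℂ, normSq ψ = 1 ∧ Anti μ ψ ∧ SymU τ μ ψ ∧
      E *ᵥ ψ = ((accept E ψ : ℝ) : ℂ) • ψ ∧
      ∀ φ : St D n → ℂ, normSq φ = 1 → accept E φ ≤ accept E ψ := by
  classical
  have : Nonempty (St D n) := ⟨(⟨0, hD⟩, fun _ => false)⟩
  obtain ⟨v₀, hv₀, hmax⟩ := exists_max E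
  set s : ℝ := accept E v₀ with hs
  set B : Matrix (St D n) (St D n) ℂ := (s : ℂ) • 1 - E with hBdef
  have hB : B.PosSemidef := psd_of_accept hE hmax
  have hv0 : v₀ ≠ 0 := by
    rintro rfl
    simp [normSq] at hv₀
  have hBv : B *ᵥ v₀ = 0 := by
    rw [← hB.dotProduct_mulVec_zero_iff]
    have h1 : accept B v₀ = 0 := by
      rw [hBdef, accept_sub, accept_smul, accept_one, hv₀]
      simp [hs]
    have h2 : (star v₀ ⬝ᵥ B *ᵥ v₀).im = 0 := by
      have := hB.isHermitian.im_star_dotProduct_mulVec_self v₀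
      simpa using this
    exact Complex.ext h1 h2
  obtain ⟨μ, hM, v, hv, hBv, hA, hSy⟩ := exists_form (symm_sub_one hS (s : ℂ)) hv0 hBv
  have hpos : 0 < normSq v := by
    refine lt_of_le_of_ne (normSq_nonneg v) (fun h0 => hv ?_)
    funext p
    have h1 : ‖v p‖ ^ 2 ≤ normSq v :=
      Finset.single_le_sum (f := fun i => ‖v i‖ ^ 2) (fun _ _ => by positivity) (Finset.mem_univ p)
    have h2 : ‖v p‖ ^ 2 = 0 := le_antisymm (h1.trans h0.symm.le) (by positivity)
    simpa using h2
  set r : ℝ := (Real.sqrt (normSq v))⁻¹ with hr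
  have hr2 : r ^ 2 = (normSq v)⁻¹ := by rw [hr, inv_pow, Real.sq_sqrt hpos.le]
  have hn : normSq ((r : ℂ) • v) = 1 := by
    rw [normSq_smul, hr2]
    exact inv_mul_cancel₀ hpos.ne'
  have hEv : E *ᵥ v = (s : ℂ) • v := by
    have h1 : (s : ℂ) • v - E *ᵥ v = 0 := by
      rw [← hBv, Matrix.sub_mulVec, Matrix.smul_mulVec, Matrix.one_mulVec]
    exact (sub_eq_zero.1 h1).symm
  have hacc : accept E ((r : ℂ) • v) = s := by
    have h1 : accept ((s : ℂ) • (1 : Matrix (St D n) (St D n) ℂ) - E) ((r : ℂ) • v) = 0 := by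
      unfold accept
      rw [Matrix.mulVec_smul, hBv]
      simp
    rw [accept_sub, accept_smul, accept_one, hn] at h1
    linarith
  refine ⟨μ, hM, (r : ℂ) • v, hn, ?_, ?_, ?_, ?_⟩
  · intro i hi a x
    simp only [Pi.smul_apply, smul_eq_mul]
    rw [hA i hi a x]
    ring
  · intro i j hi hj hij a x
    simp only [Pi.smul_apply, smul_eq_mul]
    rw [hSy i j hi hj hij a x]
  · rw [hacc, Matrix.mulVec_smul, hEv, smul_comm]
  · intro φ hφ
    rw [hacc]
    exact hmax φ hφ

end Pool.Agent.TH269.SV
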