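import Mathlib
import Pool.Agent.TH269.SV.Opt
import Pool.Agent.TH269.SV.Dim

/-! Symmetric verifiers: a family of classical witnesses. -/

set_option autoImplicit false

open scoped ComplexOrder Matrix
open Pool.Agent.W996.MW Finset

namespace Pool.Agent.TH269.SV

section general

variable {ι : Type} [Fintype ι]

theorem star_dot_self (v : ι → ℂ) : star v ⬝ᵥ v = ((normSq v : ℝ) : ℂ) := by
  unfold normSq
  simp only [dotProduct, Pi.star_apply]
  push_cast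
  refine sum_congr rfl fun i _ => ?_
  rw [Complex.star_def, ← Complex.normSq_eq_conj_mul_self, Complex.normSq_eq_norm_sq]
  push_cast
  rfl

theorem star_dot_comm (v w : ι → ℂ) : star w ⬝ᵥ v = star (star v ⬝ᵥ w) := by
  simp only [dotProduct, Pi.star_apply, star_sum, star_mul', star_star]
  exact sum_congr rfl fun i _ => mul_comm _ _

/-- the acceptance probability of a vector from the overlap with an eigenvector -/
theorem accept_ge {E : Matrix ι ι ℂ} (hE : E.PosSemidef) {v : ι → ℂ} (hv : normSq v = 1) {l : ℝ}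
    (hEv : E *ᵥ v = (l : ℂ) • v) (u : ι → ℂ) : l * ‖star v ⬝ᵥ u‖ ^ 2 ≤ accept E u := by
  set α : ℂ := star v ⬝ᵥ u with hα
  set w : ι → ℂ := u - α • v with hw
  have hvv : star v ⬝ᵥ v = 1 := by rw [star_dot_self, hv]; simp
  have hvw : star v ⬝ᵥ w = 0 := by
    rw [hw, dotProduct_sub, dotProduct_smul, hvv, ← hα]
    simp
  have hwv : star w ⬝ᵥ v = 0 := by rw [star_dot_comm, hvw, star_zero]
  have hEw : star v ⬝ᵥ E *ᵥ w = 0 := by
    have h0 : star v ᵥ* E = star (E *ᵥ v) := by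
      rw [Matrix.star_mulVec, hE.isHermitian.eq]
    rw [Matrix.dotProduct_mulVec, h0, hEv, star_smul, smul_dotProduct, hvw, smul_zero]
  have hu : u = w + α • v := by rw [hw]; simp
  have h1 : star u ⬝ᵥ E *ᵥ u = star w ⬝ᵥ E *ᵥ w + star α * α * l := by
    rw [hu, Matrix.mulVec_add, Matrix.mulVec_smul, hEv, star_add, star_smul]
    simp only [add_dotProduct, dotProduct_add, smul_dotProduct, dotProduct_smul, smul_eq_mul, hwv,
      hEw, hvv]
    ring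
  have h2 : accept E u = accept E w + l * ‖α‖ ^ 2 := by
    unfold accept
    rw [h1, Complex.add_re]
    congr 1
    rw [Complex.star_def, ← Complex.normSq_eq_conj_mul_self, ← Complex.ofReal_mul,
      Complex.ofReal_re, Complex.normSq_eq_norm_sq]
    ring
  rw [h2]
  have := accept_nonneg hE w
  linarith

theorem normSq_eq_norm (u : EuclideanSpace ℂ ι) : normSq (fun i => u i) = ‖u‖ ^ 2 := by
  rw [EuclideanSpace.norm_sq_eq]
  rfl

theorem inner_eq_dot (u v : EuclideanSpace ℂ ι) :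
    inner ℂ u v = star (fun i => u i) ⬝ᵥ (fun i => v i) := by
  rw [EuclideanSpace.inner_eq_star_dotProduct, dotProduct_comm]

/-- an approximately optimal vector -/
theorem accept_near {E : Matrix ι ι ℂ} (hE : E.PosSemidef) {v : EuclideanSpace ℂ ι}
    (hv : ‖v‖ = 1) {l : ℝ} (hl : 0 ≤ l) (hEv : E *ᵥ (fun i => v i) = (l : ℂ) • (fun i => v i))
    {u : EuclideanSpace ℂ ι} {ε : ℝ} (hε : ε < 1) (huv : ‖v - u‖ ^ 2 ≤ ε) :
    u ≠ 0 ∧ (1 - ε) * l ≤ accept E (fun i => ((‖u‖⁻¹ : ℝ) : ℂ) * u i) := by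
  have hu0 : u ≠ 0 := by
    rintro rfl
    rw [sub_zero, hv, one_pow] at huv
    linarith
  refine ⟨hu0, ?_⟩
  have hupos : 0 < ‖u‖ := norm_pos_iff.2 hu0
  set a : ℂ := inner ℂ v u with ha
  have h1 : ‖v - u‖ ^ 2 = ‖v‖ ^ 2 - 2 * a.re + ‖u‖ ^ 2 := by
    have := norm_sub_sq (𝕜 := ℂ) v u
    simpa using this
  have h2 : (1 - ε) * ‖u‖ ^ 2 ≤ ‖a‖ ^ 2 := by
    have h3 : 1 - ε + ‖u‖ ^ 2 ≤ 2 * a.re := by
      rw [h1, hv] at huv
      linarith
    have h4 : a.re ≤ ‖a‖ := Complex.re_le_norm a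
    have h5 : 0 ≤ 1 - ε + ‖u‖ ^ 2 := by nlinarith [sq_nonneg ‖u‖]
    have h6 : (1 - ε + ‖u‖ ^ 2) ^ 2 ≤ (2 * ‖a‖) ^ 2 := by
      apply pow_le_pow_left₀ h5
      linarith
    nlinarith [sq_nonneg (1 - ε - ‖u‖ ^ 2)]
  have h7 : accept E (fun i => ((‖u‖⁻¹ : ℝ) : ℂ) * u i) = (‖u‖⁻¹) ^ 2 * accept E (fun i => u i) := by
    have := accept_smul_vec (‖u‖⁻¹) E (fun i => u i)
    rw [← this]
    rfl
  have h8 := accept_ge hE (v := fun i => v i) (by rw [normSq_eq_norm, hv, one_pow]) hEv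
    (fun i => u i)
  rw [← inner_eq_dot, ← ha] at h8
  rw [h7]
  have h9 : (1 - ε) * l * ‖u‖ ^ 2 ≤ accept E (fun i => u i) := by
    calc (1 - ε) * l * ‖u‖ ^ 2 = l * ((1 - ε) * ‖u‖ ^ 2) := by ring
      _ ≤ l * ‖a‖ ^ 2 := mul_le_mul_of_nonneg_left h2 hl
      _ ≤ _ := h8
  calc (1 - ε) * l = (‖u‖⁻¹) ^ 2 * ((1 - ε) * l * ‖u‖ ^ 2) := by
        field_simp
    _ ≤ _ := mul_le_mul_of_nonneg_left h9 (by positivity)

/-- rounding a real number -/
theorem round_real {N : ℕ} (hN : 1 ≤ N) {t : ℝ} (h1 : -1 ≤ t) (h2 : t ≤ 1) :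
    ∃ k : Fin (2 * N + 1), |t - (((k : ℕ) : ℝ) - N) / N| ≤ 1 / N := by
  have hNR : (0 : ℝ) < N := by exact_mod_cast hN
  have h3 : 0 ≤ (t + 1) * N := by nlinarith
  have h4 : ⌊(t + 1) * N⌋₊ < 2 * N + 1 := by
    rw [Nat.floor_lt h3]
    push_cast
    nlinarith
  refine ⟨⟨_, h4⟩, ?_⟩
  have h5 := Nat.floor_le h3
  have h6 := Nat.lt_floor_add_one ((t + 1) * N)
  have h7 : t - (((⌊(t + 1) * N⌋₊ : ℕ) : ℝ) - N) / N = ((t + 1) * N - (⌊(t + 1) * N⌋₊ : ℕ)) / N := by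
    field_simp
    ring
  simp only
  rw [h7, abs_div, abs_of_pos hNR]
  gcongr
  rw [abs_le]
  constructor <;> linarith

/-- the coefficient with the label `p` -/
noncomputable def coef (N : ℕ) (p : Fin (2 * N + 1) × Fin (2 * N + 1)) : ℂ :=
  ⟨(((p.1 : ℕ) : ℝ) - N) / N, (((p.2 : ℕ) : ℝ) - N) / N⟩

theorem round_complex {N : ℕ} (hN : 1 ≤ N) {z : ℂ} (hz : ‖z‖ ≤ 1) :
    ∃ p : Fin (2 * N + 1) × Fin (2 * N + 1), ‖z - coef N p‖ ^ 2 ≤ 2 / (N : ℝ) ^ 2 := by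
  have hNR : (0 : ℝ) < N := by exact_mod_cast hN
  have h1 := abs_le.1 ((Complex.abs_re_le_norm z).trans hz)
  have h2 := abs_le.1 ((Complex.abs_im_le_norm z).trans hz)
  obtain ⟨k, hk⟩ := round_real hN h1.1 h1.2
  obtain ⟨l, hl⟩ := round_real hN h2.1 h2.2
  refine ⟨(k, l), ?_⟩
  rw [← Complex.normSq_eq_norm_sq, Complex.normSq_apply]
  have h3 : (z - coef N (k, l)).re = z.re - (((k : ℕ) : ℝ) - N) / N := rfl
  have h4 : (z - coef N (k, l)).im = z.im - (((l : ℕ) : ℝ) - N) / N := rfl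
  rw [h3, h4]
  have h5 : (z.re - (((k : ℕ) : ℝ) - N) / N) ^ 2 ≤ (1 / (N : ℝ)) ^ 2 := by
    rw [← sq_abs]
    exact pow_le_pow_left₀ (abs_nonneg _) hk 2
  have h6 : (z.im - (((l : ℕ) : ℝ) - N) / N) ^ 2 ≤ (1 / (N : ℝ)) ^ 2 := by
    rw [← sq_abs]
    exact pow_le_pow_left₀ (abs_nonneg _) hl 2
  have h7 : (1 / (N : ℝ)) ^ 2 = 1 / (N : ℝ) ^ 2 := by rw [div_pow, one_pow]
  rw [h7] at h5 h6
  have h8 : 2 / (N : ℝ) ^ 2 = 1 / (N : ℝ) ^ 2 + 1 / (N : ℝ) ^ 2 := by ring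
  rw [h8]
  nlinarith

/-- the vectors of the family in the subspace `W` -/
noncomputable def gv (W : Submodule ℂ (EuclideanSpace ℂ ι)) (M N : ℕ)
    (z : Fin M → Fin (2 * N + 1) × Fin (2 * N + 1)) : EuclideanSpace ℂ ι :=
  ∑ i : Fin (Module.finrank ℂ W), (if h : (i : ℕ) < M then coef N (z ⟨i, h⟩) else 0) •
    ((stdOrthonormalBasis ℂ W i : W) : EuclideanSpace ℂ ι)

theorem gv_near (W : Submodule ℂ (EuclideanSpace ℂ ι)) {M N : ℕ} (hN : 1 ≤ N)
    (hM : Module.finrank ℂ W ≤ M) {v : EuclideanSpace ℂ ι} (hv : v ∈ W) (hv1 : ‖v‖ = 1) :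
    ∃ z, ‖v - gv W M N z‖ ^ 2 ≤ 2 * M / (N : ℝ) ^ 2 := by
  classical
  set b := stdOrthonormalBasis ℂ W with hb
  set v' : W := ⟨v, hv⟩ with hv'
  have hn : ∀ i, ‖b.repr v' i‖ ≤ 1 := by
    intro i
    have h1 : ‖(b.repr v') i‖ ≤ ‖b.repr v'‖ := PiLp.norm_apply_le _ _
    rw [LinearIsometryEquiv.norm_map] at h1
    exact h1.trans hv1.le
  choose p hp using fun i => round_complex hN (hn i)
  refine ⟨fun j => if h : (j : ℕ) < Module.finrank ℂ W then p ⟨j, h⟩ else (0, 0), ?_⟩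
  have h2 : gv W M N (fun j => if h : (j : ℕ) < Module.finrank ℂ W then p ⟨j, h⟩ else (0, 0)) =
      ((∑ i, coef N (p i) • b i : W) : EuclideanSpace ℂ ι) := by
    unfold gv
    rw [Submodule.coe_sum]
    refine sum_congr rfl fun i _ => ?_
    rw [dif_pos (lt_of_lt_of_le i.2 hM)]
    simp [hb]
  have h3 : v - gv W M N (fun j => if h : (j : ℕ) < Module.finrank ℂ W then p ⟨j, h⟩ else (0, 0)) =
      ((v' - ∑ i, coef N (p i) • b i : W) : EuclideanSpace ℂ ι) := by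
    rw [h2]
    rfl
  rw [h3]
  have h4 : v' - ∑ i, coef N (p i) • b i = ∑ i, (b.repr v' i - coef N (p i)) • b i := by
    conv_lhs => rw [← b.sum_repr v']
    rw [← sum_sub_distrib]
    refine sum_congr rfl fun i _ => ?_
    rw [sub_smul]
  have h5 : ‖((v' - ∑ i, coef N (p i) • b i : W) : EuclideanSpace ℂ ι)‖ ^ 2 =
      ∑ i, ‖b.repr v' i - coef N (p i)‖ ^ 2 := by
    rw [← Submodule.coe_norm, h4]
    have h6 := b.repr.norm_map (∑ i, (b.repr v' i - coef N (p i)) • b i)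
    rw [← h6, EuclideanSpace.norm_sq_eq]
    refine sum_congr rfl fun i _ => ?_
    congr 2
    rw [map_sum]
    simp [b.repr_self, Pi.single_apply]
  rw [h5]
  calc ∑ i, ‖b.repr v' i - coef N (p i)‖ ^ 2 ≤ ∑ _i : Fin (Module.finrank ℂ W), 2 / (N : ℝ) ^ 2 :=
        sum_le_sum fun i _ => hp i
    _ = Module.finrank ℂ W * (2 / (N : ℝ) ^ 2) := by
        rw [sum_const, card_univ, Fintype.card_fin, nsmul_eq_mul]
    _ ≤ M * (2 / (N : ℝ) ^ 2) := by
        have : (Module.finrank ℂ W : ℝ) ≤ M := by exact_mod_cast hM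
        gcongr
    _ = 2 * M / (N : ℝ) ^ 2 := by ring

end general

variable {D n c : ℕ}

theorem sum_cnt (τ : Fin n → Fin c) : ∑ t, cnt τ t = n := by
  unfold cnt
  rw [← card_eq_sum_card_fiberwise (f := τ) (t := univ) (fun _ _ => mem_univ _)]
  simp

theorem one_add_sum_le {α : Type} (s : Finset α) (f : α → ℕ) :
    1 + ∑ t ∈ s, f t ≤ ∏ t ∈ s, (f t + 1) := by
  classical
  induction s using Finset.induction_on with
  | empty => simp
  | insert a s ha ih =>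
    rw [sum_insert ha, prod_insert ha]
    have h1 : 1 ≤ ∏ t ∈ s, (f t + 1) := le_trans (by omega) ih
    nlinarith

theorem n_lt_dimT (hD : 1 ≤ D) (τ : Fin n → Fin c) : n + 1 ≤ dimT D τ := by
  have h1 := one_add_sum_le univ (cnt τ)
  rw [sum_cnt] at h1
  unfold dimT
  nlinarith

/-- the parameter of the grid -/
noncomputable def NN (M : ℕ) (ε : ℝ) : ℕ := ⌈2 * M / ε⌉₊

/-- the labels of the family -/
abbrev Lab (n M N : ℕ) : Type :=
  (Fin n → Fin n) × (Fin M → Fin (2 * N + 1) × Fin (2 * N + 1))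

open Classical in
/-- the member of the family with the label `q` -/
noncomputable def mem (D : ℕ) (τ : Fin n → Fin c) (N : ℕ) (q : Lab n (dimT D τ) N) :
    St D n → ℂ :=
  if gv (U D τ q.1) (dimT D τ) N q.2 = 0 then
    (if h : 0 < D then fun p => if p = (⟨0, h⟩, fun _ => false) then 1 else 0 else 0)
  else fun p => ((‖gv (U D τ q.1) (dimT D τ) N q.2‖⁻¹ : ℝ) : ℂ) *
    gv (U D τ q.1) (dimT D τ) N q.2 p

theorem normSq_mem (hD : 0 < D) (τ : Fin n → Fin c) (N : ℕ) (q : Lab n (dimT D τ) N) :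
    normSq (mem D τ N q) = 1 := by
  classical
  unfold mem
  split_ifs with h1
  · simp [normSq, apply_ite]
  · set u := gv (U D τ q.1) (dimT D τ) N q.2 with hu
    have h2 : 0 < ‖u‖ := norm_pos_iff.2 h1
    have h3 : normSq (fun p => ((‖u‖⁻¹ : ℝ) : ℂ) * u p) = (‖u‖⁻¹) ^ 2 * normSq (fun p => u p) := by
      rw [← normSq_smul]
      rfl
    rw [h3, normSq_eq_norm, inv_pow]
    exact inv_mul_cancel₀ (by positivity)

/-- **The family contains an almost optimal witness for every symmetric verifier.** -/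
theorem mem_opt (hD : 1 ≤ D) (τ : Fin n → Fin c) {ε : ℝ} (hε : 0 < ε) (hε1 : ε < 1)
    {E : Matrix (St D n) (St D n) ℂ} (hE : E.PosSemidef) (hS : Symm τ E) {φ : St D n → ℂ}
    (hφ : normSq φ = 1) :
    ∃ q, (1 - ε) * accept E φ ≤ accept E (mem D τ (NN (dimT D τ) ε) q) := by
  obtain ⟨μ, hM, ψ, hψ, hA, hSy, hEψ, hmax⟩ := exists_opt hE hS hD
  set v : EuclideanSpace ℂ (St D n) := WithLp.toLp 2 ψ with hv
  have hvU : v ∈ U D τ μ := ⟨hA, hSy⟩
  have hv1 : ‖v‖ = 1 := by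
    have h1 := normSq_eq_norm v
    have h2 : normSq (fun i => v i) = 1 := hψ
    rw [h2] at h1
    have := norm_nonneg v
    nlinarith
  have hMpos : (0 : ℝ) < dimT D τ := by
    have := n_lt_dimT hD τ
    exact_mod_cast (by omega : 0 < dimT D τ)
  have hN0 : (2 * dimT D τ / ε : ℝ) ≤ NN (dimT D τ) ε := Nat.le_ceil _
  have hNpos : (0 : ℝ) < NN (dimT D τ) ε := lt_of_lt_of_le (by positivity) hN0
  have hN : 1 ≤ NN (dimT D τ) ε := by exact_mod_cast hNpos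
  obtain ⟨z, hz⟩ := gv_near (U D τ μ) hN (finrank_U hM) hvU hv1
  have hz' : ‖v - gv (U D τ μ) (dimT D τ) (NN (dimT D τ) ε) z‖ ^ 2 ≤ ε := by
    refine hz.trans ?_
    rw [div_le_iff₀ (by positivity)]
    have h1 : (1 : ℝ) ≤ NN (dimT D τ) ε := by exact_mod_cast hN
    have h2 : (2 * dimT D τ : ℝ) ≤ ε * NN (dimT D τ) ε := by
      rw [div_le_iff₀ hε] at hN0
      linarith
    nlinarith [mul_nonneg hε.le (mul_nonneg hNpos.le (sub_nonneg.2 h1))]
  have hl : 0 ≤ accept E ψ := accept_nonneg hE ψ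
  obtain ⟨h1, h2⟩ := accept_near hE hv1 hl hEψ hε1 hz'
  refine ⟨(μ, z), ?_⟩
  have h3 : mem D τ (NN (dimT D τ) ε) (μ, z) =
      fun p => ((‖gv (U D τ μ) (dimT D τ) (NN (dimT D τ) ε) z‖⁻¹ : ℝ) : ℂ) *
        gv (U D τ μ) (dimT D τ) (NN (dimT D τ) ε) z p := by
    unfold mem
    rw [if_neg h1]
  rw [h3]
  refine le_trans ?_ h2
  exact mul_le_mul_of_nonneg_left (hmax φ hφ) (by linarith)

theorem card_lab (hD : 1 ≤ D) (τ : Fin n → Fin c) {ε : ℝ} (hε : 0 < ε) (hε1 : ε < 1) :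
    (Fintype.card (Lab n (dimT D τ) (NN (dimT D τ) ε)) : ℝ) ≤
      (7 * dimT D τ / ε) ^ (3 * dimT D τ) := by
  set M := dimT D τ with hM
  have hn := n_lt_dimT hD τ
  rw [← hM] at hn
  have hM1 : (1 : ℝ) ≤ M := by exact_mod_cast (by omega : 1 ≤ M)
  have hMe : (M : ℝ) ≤ M / ε := by
    rw [le_div_iff₀ hε]
    nlinarith
  have hA : (1 : ℝ) ≤ 7 * M / ε := by
    have : (7 : ℝ) * M / ε = 7 * (M / ε) := by ring
    rw [this]
    linarith
  have hN : (NN M ε : ℝ) ≤ 2 * M / ε + 1 := (Nat.ceil_lt_add_one (by positivity)).le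
  have hG : ((2 * NN M ε + 1 : ℕ) : ℝ) ≤ 7 * M / ε := by
    push_cast
    have h1 : (2 : ℝ) * M / ε = 2 * (M / ε) := by ring
    have h2 : (7 : ℝ) * M / ε = 7 * (M / ε) := by ring
    rw [h1] at hN
    rw [h2]
    linarith
  have hnM : (n : ℝ) ≤ 7 * M / ε := by
    have h1 : (n : ℝ) ≤ M := by exact_mod_cast (by omega : n ≤ M)
    have h2 : (7 : ℝ) * M / ε = 7 * (M / ε) := by ring
    rw [h2]
    linarith
  rw [Fintype.card_prod, Fintype.card_fun, Fintype.card_fun, Fintype.card_prod, Fintype.card_fin,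
    Fintype.card_fin, Fintype.card_fin]
  push_cast
  have h1 : (n : ℝ) ^ n ≤ (7 * M / ε) ^ M :=
    (pow_le_pow_left₀ (Nat.cast_nonneg n) hnM n).trans (pow_le_pow_right₀ hA (by omega))
  have h2 : ((2 * (NN M ε : ℝ) + 1) * (2 * (NN M ε : ℝ) + 1)) ^ M ≤ (7 * M / ε) ^ (2 * M) := by
    have h3 : (2 * (NN M ε : ℝ) + 1) ≤ 7 * M / ε := by
      have := hG
      push_cast at this
      exact this
    rw [← pow_two, ← pow_mul]
    exact pow_le_pow_left₀ (by positivity) h3 _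
  calc (n : ℝ) ^ n * ((2 * (NN M ε : ℝ) + 1) * (2 * (NN M ε : ℝ) + 1)) ^ M
      ≤ (7 * M / ε) ^ M * (7 * M / ε) ^ (2 * M) := by gcongr
    _ = (7 * M / ε) ^ (3 * M) := by
        rw [← pow_add]
        congr 1
        ring

end Pool.Agent.TH269.SV
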