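import Mathlib
import Pool.Agent.TH269.SV.Fam
import Pool.Agent.W346.MW.FAM

/-! Symmetric verifiers: small families do not suffice. -/

set_option autoImplicit false

open scoped ComplexOrder Matrix
open Pool.Agent.W996.MW Finset

namespace Pool.Agent.TH269.SV

variable {D n c : ℕ}

/-- orbits of basis states -/
abbrev Orb (D : ℕ) (τ : Fin n → Fin c) : Type := Fin D × ((t : Fin c) → Fin (cnt τ t + 1))

/-- the orbit of a basis state -/
def orb (τ : Fin n → Fin c) (p : St D n) : Orb D τ :=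
  (p.1, fun t => ⟨wt τ id p.2 t, Nat.lt_succ_of_le (wt_le τ id p.2 t)⟩)

theorem card_Orb (D : ℕ) (τ : Fin n → Fin c) : Fintype.card (Orb D τ) = dimT D τ := by
  rw [Fintype.card_prod, Fintype.card_fin, Fintype.card_pi]
  simp [dimT]

theorem orb_swap (τ : Fin n → Fin c) {i j : Fin n} (hij : τ i = τ j) (a : Fin D)
    (x : Fin n → Bool) : orb τ (a, x ∘ Equiv.swap i j) = orb τ (a, x) := by
  unfold orb
  refine Prod.ext rfl ?_
  funext t
  apply Fin.ext
  simp only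
  unfold wt
  refine card_bij' (fun k _ => Equiv.swap i j k) (fun k _ => Equiv.swap i j k) ?_ ?_ ?_ ?_
  · intro k hk'
    obtain ⟨-, -, h2, h4⟩ := mem_filter.1 hk'
    refine mem_filter.2 ⟨mem_univ _, rfl, ?_, h4⟩
    by_cases e1 : k = i
    · subst e1; rw [Equiv.swap_apply_left, ← hij, h2]
    · by_cases e2 : k = j
      · subst e2; rw [Equiv.swap_apply_right, hij, h2]
      · rwa [Equiv.swap_apply_of_ne_of_ne e1 e2]
  · intro k hk'
    obtain ⟨-, -, h2, h4⟩ := mem_filter.1 hk'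
    refine mem_filter.2 ⟨mem_univ _, rfl, ?_, by simpa using h4⟩
    by_cases e1 : k = i
    · subst e1; rw [Equiv.swap_apply_left, ← hij, h2]
    · by_cases e2 : k = j
      · subst e2; rw [Equiv.swap_apply_right, hij, h2]
      · rwa [Equiv.swap_apply_of_ne_of_ne e1 e2]
  · intro k _
    simp
  · intro k _
    simp

/-- size of the fibre -/
def fib (τ : Fin n → Fin c) (w : Orb D τ) : Finset (St D n) := univ.filter fun p => orb τ p = w

/-- every orbit is attained -/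
theorem fib_pos (τ : Fin n → Fin c) (w : Orb D τ) : 0 < (fib τ w).card := by
  obtain ⟨a, w⟩ := w
  have h1 : ∀ t : Fin c, ∃ s ⊆ (univ.filter fun i => τ i = t), s.card = w t := fun t =>
    exists_subset_card_eq (Nat.lt_succ_iff.1 (w t).2)
  choose s hs1 hs2 using h1
  refine card_pos.2 ⟨(a, fun i => decide (i ∈ s (τ i))), mem_filter.2 ⟨mem_univ _, ?_⟩⟩
  unfold orb
  refine Prod.ext rfl ?_
  funext t
  apply Fin.ext
  simp only
  rw [← hs2 t]
  unfold wt
  congr 1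
  ext i
  rw [mem_filter]
  simp only [id_eq, mem_univ, decide_eq_true_eq, true_and]
  constructor
  · rintro ⟨h1, h2⟩
    rwa [h1] at h2
  · intro h1
    have h2 := (mem_filter.1 (hs1 t h1)).2
    exact ⟨h2, by rwa [h2]⟩

/-- the isometry -/
noncomputable def V (τ : Fin n → Fin c) (ψ : Orb D τ → ℂ) : St D n → ℂ :=
  fun p => ((Real.sqrt ((fib τ (orb τ p)).card))⁻¹ : ℝ) * ψ (orb τ p)

/-- the adjoint -/
noncomputable def Vs (τ : Fin n → Fin c) (φ : St D n → ℂ) : Orb D τ → ℂ :=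
  fun w => ((Real.sqrt ((fib τ w).card))⁻¹ : ℝ) * ∑ p ∈ fib τ w, φ p

theorem normSq_V (τ : Fin n → Fin c) (ψ : Orb D τ → ℂ) : normSq (V τ ψ) = normSq ψ := by
  unfold normSq
  rw [← sum_fiberwise_of_maps_to (g := orb τ) (t := univ) (fun _ _ => mem_univ _)]
  refine sum_congr rfl fun w _ => ?_
  have hc : (0 : ℝ) < (fib τ w).card := by exact_mod_cast fib_pos τ w
  have h1 : ∀ p ∈ univ.filter (fun p => orb τ p = w), ‖V τ ψ p‖ ^ 2 =
      ((fib τ w).card : ℝ)⁻¹ * ‖ψ w‖ ^ 2 := by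
    intro p hp
    have h2 := (mem_filter.1 hp).2
    unfold V
    rw [h2, norm_mul, mul_pow, Complex.norm_real, Real.norm_eq_abs, sq_abs, inv_pow,
      Real.sq_sqrt hc.le]
  rw [sum_congr rfl h1, sum_const, nsmul_eq_mul]
  have h3 : (univ.filter (fun p => orb τ p = w)) = fib τ w := rfl
  rw [h3, ← mul_assoc, mul_inv_cancel₀ hc.ne', one_mul]

theorem dot_V (τ : Fin n → Fin c) (φ : St D n → ℂ) (ψ : Orb D τ → ℂ) :
    star φ ⬝ᵥ V τ ψ = star (Vs τ φ) ⬝ᵥ ψ := by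
  simp only [dotProduct, Pi.star_apply]
  rw [← sum_fiberwise_of_maps_to (g := orb τ) (t := univ) (fun _ _ => mem_univ _)]
  refine sum_congr rfl fun w _ => ?_
  have h1 : ∀ p ∈ univ.filter (fun p => orb τ p = w), star (φ p) * V τ ψ p =
      star (φ p) * (((Real.sqrt ((fib τ w).card))⁻¹ : ℝ) * ψ w) := by
    intro p hp
    have h2 := (mem_filter.1 hp).2
    unfold V
    rw [h2]
  rw [sum_congr rfl h1, ← sum_mul]
  unfold Vs fib
  rw [star_mul', star_sum, Complex.star_def, Complex.conj_ofReal]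
  ring

theorem normSq_Vs (τ : Fin n → Fin c) (φ : St D n → ℂ) : normSq (Vs τ φ) ≤ normSq φ := by
  unfold normSq
  rw [← sum_fiberwise_of_maps_to (f := fun i => ‖φ i‖ ^ 2) (g := orb τ) (t := univ)
    (fun _ _ => mem_univ _)]
  refine sum_le_sum fun w _ => ?_
  have hc : (0 : ℝ) < (fib τ w).card := by exact_mod_cast fib_pos τ w
  unfold Vs
  rw [norm_mul, mul_pow, Complex.norm_real, Real.norm_eq_abs, sq_abs, inv_pow,
    Real.sq_sqrt hc.le]
  have h1 : ‖∑ p ∈ fib τ w, φ p‖ ^ 2 ≤ (fib τ w).card * ∑ p ∈ fib τ w, ‖φ p‖ ^ 2 := by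
    calc ‖∑ p ∈ fib τ w, φ p‖ ^ 2 ≤ (∑ p ∈ fib τ w, ‖φ p‖) ^ 2 :=
          pow_le_pow_left₀ (norm_nonneg _) (norm_sum_le _ _) 2
      _ ≤ _ := sq_sum_le_card_mul_sum_sq
  calc ((fib τ w).card : ℝ)⁻¹ * ‖∑ p ∈ fib τ w, φ p‖ ^ 2
      ≤ ((fib τ w).card : ℝ)⁻¹ * ((fib τ w).card * ∑ p ∈ fib τ w, ‖φ p‖ ^ 2) := by gcongr
    _ = ∑ p ∈ fib τ w, ‖φ p‖ ^ 2 := by rw [← mul_assoc, inv_mul_cancel₀ hc.ne', one_mul]
    _ = _ := rfl

section general

variable {ι : Type} [Fintype ι] [DecidableEq ι]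

/-- the projection onto a state -/
noncomputable def proj (ψ : ι → ℂ) : Matrix ι ι ℂ := Matrix.vecMulVec ψ (star ψ)

theorem accept_proj (ψ φ : ι → ℂ) : accept (proj ψ) φ = ‖star φ ⬝ᵥ ψ‖ ^ 2 := by
  unfold accept proj
  have h1 : Matrix.vecMulVec ψ (star ψ) *ᵥ φ = (star ψ ⬝ᵥ φ) • ψ := by
    funext i
    simp only [Matrix.mulVec, dotProduct, Matrix.vecMulVec_apply, Pi.smul_apply, smul_eq_mul]
    rw [sum_mul]
    exact sum_congr rfl fun j _ => by ring
  rw [h1, dotProduct_smul, smul_eq_mul, star_dot_comm φ ψ, Complex.star_def,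
    ← Complex.normSq_eq_conj_mul_self, Complex.ofReal_re, Complex.normSq_eq_norm_sq]

theorem psd_proj (ψ : ι → ℂ) : (proj ψ).PosSemidef := Matrix.posSemidef_vecMulVec_self_star ψ

theorem abs_dot_le (φ ψ : ι → ℂ) : ‖star φ ⬝ᵥ ψ‖ ^ 2 ≤ normSq φ * normSq ψ := by
  have h1 := norm_inner_le_norm (𝕜 := ℂ) (WithLp.toLp 2 φ : EuclideanSpace ℂ ι) (WithLp.toLp 2 ψ)
  rw [inner_eq_dot] at h1
  have h2 := normSq_eq_norm (WithLp.toLp 2 φ : EuclideanSpace ℂ ι)
  have h3 := normSq_eq_norm (WithLp.toLp 2 ψ : EuclideanSpace ℂ ι)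
  have h4 : normSq φ = ‖(WithLp.toLp 2 φ : EuclideanSpace ℂ ι)‖ ^ 2 := h2
  have h5 : normSq ψ = ‖(WithLp.toLp 2 ψ : EuclideanSpace ℂ ι)‖ ^ 2 := h3
  rw [h4, h5, ← mul_pow]
  exact pow_le_pow_left₀ (norm_nonneg _) h1 2

theorem effect_proj {ψ : ι → ℂ} (hψ : normSq ψ = 1) : IsEffect (proj ψ) := by
  refine ⟨psd_proj ψ, ?_⟩
  have h := psd_of_accept (psd_proj ψ) (s := 1) (fun φ hφ => by
    rw [accept_proj]
    refine (abs_dot_le φ ψ).trans ?_
    rw [hφ, hψ, one_mul])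
  simpa using h

theorem normSq_unit {φ : ι → ℂ} (h : 0 < normSq φ) :
    normSq (((Real.sqrt (normSq φ))⁻¹ : ℝ) • φ) = 1 := by
  have h1 : (((Real.sqrt (normSq φ))⁻¹ : ℝ) • φ) = (((Real.sqrt (normSq φ))⁻¹ : ℝ) : ℂ) • φ := by
    funext i
    simp
  rw [h1, normSq_smul, inv_pow, Real.sq_sqrt h.le]
  exact inv_mul_cancel₀ h.ne'

end general

/-- **Small families do not suffice.** -/
theorem lower (hD : 1 ≤ D) (τ : Fin n → Fin c) (K : ℕ) (F : Fin K → St D n → ℂ)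
    (hF : ∀ j, normSq (F j) = 1) :
    ∃ E : Matrix (St D n) (St D n) ℂ, IsEffect E ∧ Symm τ E ∧
      (∃ ψ : St D n → ℂ, normSq ψ = 1 ∧ accept E ψ = 1) ∧
      ∀ j, accept E (F j) ≤ 2 * Real.log (4 * K + 1) / dimT D τ := by
  classical
  have hne : Nonempty (Orb D τ) := ⟨(⟨0, hD⟩, fun t => 0)⟩
  let w₀ : Orb D τ := (⟨0, hD⟩, fun t => 0)
  let G : Fin K → Orb D τ → ℂ := fun j =>
    if 0 < normSq (Vs τ (F j)) then ((Real.sqrt (normSq (Vs τ (F j))))⁻¹ : ℝ) • Vs τ (F j)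
    else fun w => if w = w₀ then 1 else 0
  have hG : ∀ j, normSq (G j) = 1 := by
    intro j
    simp only [G]
    split_ifs with h
    · exact normSq_unit h
    · simp [normSq, apply_ite]
  obtain ⟨ψ, hψ, hov⟩ := Pool.Agent.W346.MW.fam (Orb D τ) K G hG
  rw [card_Orb] at hov
  have hVψ : normSq (V τ ψ) = 1 := by rw [normSq_V, hψ]
  refine ⟨proj (V τ ψ), effect_proj hVψ, ?_, ⟨V τ ψ, hVψ, ?_⟩, fun j => ?_⟩
  · intro i j hij a x b y
    have h1 : ∀ (a : Fin D) (x : Fin n → Bool),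
        V τ ψ (a, x ∘ Equiv.swap i j) = V τ ψ (a, x) := by
      intro a x
      unfold V
      rw [orb_swap τ hij]
    simp only [proj, Matrix.vecMulVec_apply, Pi.star_apply, h1]
  · rw [accept_proj, star_dot_self, hVψ]
    simp
  · rw [accept_proj, dot_V]
    refine le_trans ?_ (hov j)
    simp only [G]
    split_ifs with h
    · have h1 : star (((Real.sqrt (normSq (Vs τ (F j))))⁻¹ : ℝ) • Vs τ (F j)) ⬝ᵥ ψ =
          (((Real.sqrt (normSq (Vs τ (F j))))⁻¹ : ℝ) : ℂ) * (star (Vs τ (F j)) ⬝ᵥ ψ) := by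
        simp only [dotProduct, Pi.star_apply, Pi.smul_apply, Complex.real_smul, star_mul',
          Complex.star_def, Complex.conj_ofReal]
        rw [mul_sum]
        exact sum_congr rfl fun i _ => by ring
      rw [h1, norm_mul, mul_pow, Complex.norm_real, Real.norm_eq_abs, sq_abs, inv_pow,
        Real.sq_sqrt h.le]
      have h2 : normSq (Vs τ (F j)) ≤ 1 := (normSq_Vs τ (F j)).trans (hF j).le
      have h3 : 1 ≤ (normSq (Vs τ (F j)))⁻¹ := (one_le_inv₀ h).2 h2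
      exact le_mul_of_one_le_left (by positivity) h3
    · have h1 : normSq (Vs τ (F j)) = 0 := le_antisymm (not_lt.1 h) (normSq_nonneg _)
      have h2 := abs_dot_le (Vs τ (F j)) ψ
      rw [h1, zero_mul] at h2
      exact h2.trans (by positivity)

end Pool.Agent.TH269.SV
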