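import Mathlib
import Pool.Agent.TH269.SV.Low
import Pool.Agent.TH269.SV.Form

/-! Symmetric verifiers: assembly. -/

set_option autoImplicit false

open scoped ComplexOrder Matrix
open Pool.Agent.W996.MW Finset

namespace Pool.Agent.TH269.SV

variable {D n c : ℕ}

theorem matching_id (τ : Fin n → Fin c) : Matching τ id := fun _ => ⟨rfl, rfl⟩

theorem default_form (h : 0 < D) (τ : Fin n → Fin c) :
    (fun p : St D n => if p = (⟨0, h⟩, fun _ => false) then (1 : ℂ) else 0) =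
      form τ id (fun a w => if a = ⟨0, h⟩ ∧ w = 0 then 1 else 0) := by
  funext p
  obtain ⟨a, x⟩ := p
  unfold form
  have h1 : univ.filter (fun i : Fin n => i < id i) = ∅ := by
    rw [filter_eq_empty_iff]
    intro i _
    exact lt_irrefl _
  simp only
  rw [h1, prod_empty, one_mul]
  congr 1
  rw [Prod.mk.injEq]
  refine propext (and_congr_right fun _ => ?_)
  constructor
  · rintro rfl
    funext t
    simp [wt]
  · intro h2
    funext i
    have h3 := congrFun h2 (τ i)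
    unfold wt at h3
    rw [Pi.zero_apply, card_eq_zero, filter_eq_empty_iff] at h3
    have h4 := h3 (mem_univ i)
    simpa using h4

open Classical in
/-- the family -/
noncomputable def fam (hD : 0 < D) (τ : Fin n → Fin c) (N : ℕ) (q : Lab n (dimT D τ) N) :
    St D n → ℂ :=
  if Matching τ q.1 then mem D τ N q
  else fun p => if p = (⟨0, hD⟩, fun _ => false) then 1 else 0

theorem normSq_fam (hD : 0 < D) (τ : Fin n → Fin c) (N : ℕ) (q : Lab n (dimT D τ) N) :
    normSq (fam hD τ N q) = 1 := by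
  classical
  unfold fam
  split_ifs with h
  · exact normSq_mem hD τ N q
  · simp [normSq, apply_ite]

theorem gv_mem {ι : Type} [Fintype ι] (W : Submodule ℂ (EuclideanSpace ℂ ι)) (M N : ℕ)
    (z : Fin M → Fin (2 * N + 1) × Fin (2 * N + 1)) : gv W M N z ∈ W :=
  Submodule.sum_mem _ fun i _ => Submodule.smul_mem _ _ (Subtype.coe_prop _)

theorem form_fam (hD : 0 < D) (τ : Fin n → Fin c) (N : ℕ) (q : Lab n (dimT D τ) N) :
    ∃ μ g, Matching τ μ ∧ fam hD τ N q = form τ μ g := by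
  classical
  unfold fam
  split_ifs with h
  · unfold mem
    split_ifs with h1
    · exact ⟨id, _, matching_id τ, default_form hD τ⟩
    · set u := gv (U D τ q.1) (dimT D τ) N q.2 with hu
      obtain ⟨hA, hS⟩ : u ∈ U D τ q.1 := gv_mem _ _ _ _
      obtain ⟨g, hg⟩ := form_of (ψ := fun p => ((‖u‖⁻¹ : ℝ) : ℂ) * u p) h
        (fun i hi a x => by
          have := hA i hi a x
          simp only at this
          simp only [this]
          ring)
        (fun i j hi hj hij a x => by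
          have := hS i j hi hj hij a x
          simp only at this
          simp only [this])
      exact ⟨q.1, g, h, hg⟩
  · exact ⟨id, _, matching_id τ, default_form hD τ⟩

theorem fam_opt (hD : 1 ≤ D) (τ : Fin n → Fin c) {ε : ℝ} (hε : 0 < ε) (hε1 : ε < 1)
    {E : Matrix (St D n) (St D n) ℂ} (hE : E.PosSemidef) (hS : Symm τ E) {φ : St D n → ℂ}
    (hφ : normSq φ = 1) :
    ∃ q, (1 - ε) * accept E φ ≤ accept E (fam hD τ (NN (dimT D τ) ε) q) := by
  obtain ⟨μ, hM, ψ, hψ, hA, hSy, hEψ, hmax⟩ := exists_opt hE hS hD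
  set v : EuclideanSpace ℂ (St D n) := WithLp.toLp 2 ψ with hv
  have hvU : v ∈ U D τ μ := ⟨hA, hSy⟩
  have hv1 : ‖v‖ = 1 := by
    have h1 := normSq_eq_norm v
    have h2 : normSq (fun i => v i) = 1 := hψ
    rw [h2] at h1
    have := norm_nonneg v
    nlinarith
  have hMpos : (0 : ℝ) < dimT D τ := by
    have := n_lt_dimT hD τ
    exact_mod_cast (by omega : 0 < dimT D τ)
  have hN0 : (2 * dimT D τ / ε : ℝ) ≤ NN (dimT D τ) ε := Nat.le_ceil _
  have hNpos : (0 : ℝ) < NN (dimT D τ) ε := lt_of_lt_of_le (by positivity) hN0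
  have hN : 1 ≤ NN (dimT D τ) ε := by exact_mod_cast hNpos
  obtain ⟨z, hz⟩ := gv_near (U D τ μ) hN (finrank_U hM) hvU hv1
  have hz' : ‖v - gv (U D τ μ) (dimT D τ) (NN (dimT D τ) ε) z‖ ^ 2 ≤ ε := by
    refine hz.trans ?_
    rw [div_le_iff₀ (by positivity)]
    have h1 : (1 : ℝ) ≤ NN (dimT D τ) ε := by exact_mod_cast hN
    have h2 : (2 * dimT D τ : ℝ) ≤ ε * NN (dimT D τ) ε := by
      rw [div_le_iff₀ hε] at hN0
      linarith
    nlinarith [mul_nonneg hε.le (mul_nonneg hNpos.le (sub_nonneg.2 h1))]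
  have hl : 0 ≤ accept E ψ := accept_nonneg hE ψ
  obtain ⟨h1, h2⟩ := accept_near hE hv1 hl hEψ hε1 hz'
  refine ⟨(μ, z), ?_⟩
  have h3 : fam hD τ (NN (dimT D τ) ε) (μ, z) =
      fun p => ((‖gv (U D τ μ) (dimT D τ) (NN (dimT D τ) ε) z‖⁻¹ : ℝ) : ℂ) *
        gv (U D τ μ) (dimT D τ) (NN (dimT D τ) ε) z p := by
    unfold fam mem
    rw [if_pos hM, if_neg h1]
  rw [h3]
  refine le_trans ?_ h2
  exact mul_le_mul_of_nonneg_left (hmax φ hφ) (by linarith)

/-- part A -/
theorem partA (hD : 1 ≤ D) (τ : Fin n → Fin c) (E : Matrix (St D n) (St D n) ℂ)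
    (hE : IsEffect E) (hS : Symm τ E) : ∃ μ g, Matching τ μ ∧ normSq (form τ μ g) = 1 ∧
      ∀ φ : St D n → ℂ, normSq φ = 1 → accept E φ ≤ accept E (form τ μ g) := by
  obtain ⟨μ, hM, ψ, hψ, hA, hSy, -, hmax⟩ := exists_opt hE.1 hS hD
  obtain ⟨g, hg⟩ := form_of hM hA hSy
  subst hg
  exact ⟨μ, g, hM, hψ, hmax⟩

/-- part B -/
theorem partB (hD : 1 ≤ D) (τ : Fin n → Fin c) {ε : ℝ} (hε : 0 < ε) (hε1 : ε < 1) (L : ℕ)
    (hL : 3 * dimT D τ * Real.logb 2 (7 * dimT D τ / ε) ≤ L) :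
    ∃ F : (Fin L → Bool) → St D n → ℂ,
      (∀ y, normSq (F y) = 1 ∧ ∃ μ g, Matching τ μ ∧ F y = form τ μ g) ∧
      ∀ E : Matrix (St D n) (St D n) ℂ, IsEffect E → Symm τ E →
        ∀ φ : St D n → ℂ, normSq φ = 1 → ∃ y, (1 - ε) * accept E φ ≤ accept E (F y) := by
  classical
  have hMpos : (0 : ℝ) < dimT D τ := by
    have := n_lt_dimT hD τ
    exact_mod_cast (by omega : 0 < dimT D τ)
  have hcard : Fintype.card (Lab n (dimT D τ) (NN (dimT D τ) ε)) ≤
      Fintype.card (Fin L → Bool) := by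
    have h1 := card_lab hD τ hε hε1
    have h2 : ((7 * dimT D τ / ε) ^ (3 * dimT D τ) : ℝ) ≤ 2 ^ L := by
      have h3 : (0 : ℝ) < 7 * dimT D τ / ε := by positivity
      have h4 : ((7 * dimT D τ / ε) ^ (3 * dimT D τ) : ℝ) =
          2 ^ (3 * dimT D τ * Real.logb 2 (7 * dimT D τ / ε) : ℝ) := by
        have h5 : (3 * dimT D τ * Real.logb 2 (7 * dimT D τ / ε) : ℝ) =
            Real.logb 2 (7 * dimT D τ / ε) * ((3 * dimT D τ : ℕ) : ℝ) := by
          push_cast
          ring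
        rw [h5, Real.rpow_mul (by norm_num), Real.rpow_logb (by norm_num) (by norm_num) h3,
          Real.rpow_natCast]
      rw [h4, ← Real.rpow_natCast 2 L]
      exact Real.rpow_le_rpow_of_exponent_le (by norm_num) hL
    have h5 : ((Fintype.card (Lab n (dimT D τ) (NN (dimT D τ) ε)) : ℕ) : ℝ) ≤
        ((Fintype.card (Fin L → Bool) : ℕ) : ℝ) := by
      rw [Fintype.card_fun, Fintype.card_bool, Fintype.card_fin]
      push_cast
      exact h1.trans h2
    exact_mod_cast h5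
  obtain ⟨e⟩ := Function.Embedding.nonempty_of_card_le hcard
  have hne : Nonempty (Lab n (dimT D τ) (NN (dimT D τ) ε)) := ⟨(id, fun _ => (0, 0))⟩
  refine ⟨fun y => fam hD τ (NN (dimT D τ) ε) (Function.invFun e y), fun y =>
    ⟨normSq_fam hD τ _ _, form_fam hD τ _ _⟩, fun E hE hS φ hφ => ?_⟩
  obtain ⟨q, hq⟩ := fam_opt hD τ hε hε1 hE.1 hS hφ
  refine ⟨e q, ?_⟩
  simp only
  rw [Function.leftInverse_invFun e.injective q]
  exact hq

/-- part C -/
theorem partC (hD : 1 ≤ D) (τ : Fin n → Fin c) (L : ℕ) (F : (Fin L → Bool) → St D n → ℂ)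
    (hF : ∀ y, normSq (F y) = 1) :
    ∃ E : Matrix (St D n) (St D n) ℂ, IsEffect E ∧ Symm τ E ∧
      (∃ ψ : St D n → ℂ, normSq ψ = 1 ∧ accept E ψ = 1) ∧
      ∀ y, accept E (F y) ≤ 3 / 2 * (L + 3) / dimT D τ := by
  classical
  have e : Fin (2 ^ L) ≃ (Fin L → Bool) := by
    refine Fintype.equivOfCardEq ?_
    rw [Fintype.card_fun, Fintype.card_bool, Fintype.card_fin, Fintype.card_fin]
  obtain ⟨E, hE, hS, hψ, hj⟩ := lower hD τ (2 ^ L) (fun j => F (e j)) (fun j => hF _)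
  refine ⟨E, hE, hS, hψ, fun y => ?_⟩
  have h1 := hj (e.symm y)
  simp only [Equiv.apply_symm_apply] at h1
  refine h1.trans ?_
  have h2 : Real.log (4 * ((2 ^ L : ℕ) : ℝ) + 1) ≤ 3 / 4 * (L + 3) := by
    have h3 : (4 * ((2 ^ L : ℕ) : ℝ) + 1) ≤ 2 ^ (L + 3) := by
      push_cast
      rw [pow_add]
      have : (1 : ℝ) ≤ 2 ^ L := one_le_pow₀ (by norm_num)
      linarith
    have h4 : Real.log (4 * ((2 ^ L : ℕ) : ℝ) + 1) ≤ Real.log (2 ^ (L + 3)) :=
      Real.log_le_log (by positivity) h3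
    rw [Real.log_pow] at h4
    have h5 := Real.log_two_lt_d9
    refine h4.trans ?_
    push_cast
    nlinarith [(Nat.cast_nonneg L : (0 : ℝ) ≤ L)]
  have h6 : (0 : ℝ) ≤ dimT D τ := Nat.cast_nonneg _
  have h7 : 2 * Real.log (4 * ((2 ^ L : ℕ) : ℝ) + 1) ≤ 3 / 2 * (L + 3) := by linarith
  exact div_le_div_of_nonneg_right h7 h6

end Pool.Agent.TH269.SV
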